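import Pool.Agent.H25.Arith.Disc

/-!
# LB: the number of bad primes (Dobrowolski)

`W` is a finite set of primes `p` for which two different conjugates of `α` have equal `p`-th powers. Then `2 ^ #W ≤ #(orb α)`:
each bad prime halves (at least) the number of conjugates.
-/

set_option autoImplicit false

namespace H97.LB

open H25.Arith

variable {K : Type*} [Field K] [NumberField K]

theorem pow_ne_of_coprime {x y : K} (hxy : x ≠ y) {p n : ℕ} (hp : 0 < p) (h : x ^ p = y ^ p)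
    (hc : Nat.Coprime n p) : x ^ n ≠ y ^ n := by
  intro hn
  rcases eq_or_ne y 0 with rfl | hy
  · rw [zero_pow hp.ne'] at h
    exact hxy (pow_eq_zero_iff hp.ne' |>.1 h)
  have h1 : (x / y) ^ p = 1 := by rw [div_pow, h, div_self (pow_ne_zero _ hy)]
  have h2 : (x / y) ^ n = 1 := by rw [div_pow, hn, div_self (pow_ne_zero _ hy)]
  have h3 : x / y = 1 := by
    have := pow_gcd_eq_one.2 ⟨h2, h1⟩
    rwa [Nat.Coprime.gcd_eq_one hc, pow_one] at this
  exact hxy ((div_eq_one_iff_eq hy).1 h3)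

theorem step (α : K) (p n : ℕ) (hp : 0 < p) (hc : Nat.Coprime n p)
    (h : ∃ x ∈ orb α, ∃ y ∈ orb α, x ≠ y ∧ x ^ p = y ^ p) :
    2 * (orb (α ^ (p * n))).card ≤ (orb (α ^ n)).card := by
  classical
  have him : orb (α ^ (p * n)) = (orb (α ^ n)).image (fun z => z ^ p) := by
    ext z
    rw [Finset.mem_image]
    constructor
    · intro hz
      obtain ⟨g, rfl⟩ := Disc.mem_orb.1 hz
      exact ⟨g (α ^ n), Disc.mem_orb.2 ⟨g, rfl⟩, by rw [← map_pow, ← pow_mul, mul_comm]⟩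
    · rintro ⟨w, hw, rfl⟩
      obtain ⟨g, rfl⟩ := Disc.mem_orb.1 hw
      exact Disc.mem_orb.2 ⟨g, by rw [← map_pow, ← pow_mul, mul_comm]⟩
  rw [him]
  refine Finset.mul_card_image_le_card _ _ ?_
  intro a ha
  obtain ⟨w, hw, rfl⟩ := Finset.mem_image.1 ha
  obtain ⟨g, rfl⟩ := Disc.mem_orb.1 hw
  obtain ⟨x, hx, y, hy, hne, hxy⟩ := h
  obtain ⟨h1, rfl⟩ := Disc.mem_orb.1 hx
  obtain ⟨h2, rfl⟩ := Disc.mem_orb.1 hy
  have hne2 : (h1 α) ^ n ≠ (h2 α) ^ n := pow_ne_of_coprime hne hp hxy hc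
  rw [Nat.succ_le_iff, Finset.one_lt_card]
  refine ⟨g (α ^ n), ?_, g (h1.symm (h2 (α ^ n))), ?_, ?_⟩
  · rw [Finset.mem_filter]
    exact ⟨hw, rfl⟩
  · rw [Finset.mem_filter]
    refine ⟨Disc.mem_orb.2 ⟨g * (h1.symm * h2), rfl⟩, ?_⟩
    have h3 : (h2 (α ^ n)) ^ p = (h1 (α ^ n)) ^ p := by
      rw [map_pow, map_pow, ← pow_mul, ← pow_mul, mul_comm, pow_mul, pow_mul, hxy]
    show (g (h1.symm (h2 (α ^ n)))) ^ p = (g (α ^ n)) ^ p
    calc (g (h1.symm (h2 (α ^ n)))) ^ p = g (h1.symm ((h2 (α ^ n)) ^ p)) := by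
          rw [map_pow h1.symm, map_pow g]
      _ = g (h1.symm (h1 (α ^ n) ^ p)) := by rw [h3]
      _ = (g (α ^ n)) ^ p := by
          rw [map_pow h1.symm, map_pow g, AlgEquiv.symm_apply_apply]
  · intro he
    apply hne2
    have h3 := g.injective he
    rw [AlgEquiv.eq_symm_apply] at h3
    rw [← map_pow, ← map_pow, h3]

/-- the number of bad primes -/
theorem two_pow_bad_le (α : K) (W : Finset ℕ)
    (hW : ∀ p ∈ W, p.Prime ∧ ∃ x ∈ orb α, ∃ y ∈ orb α, x ≠ y ∧ x ^ p = y ^ p) :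
    2 ^ W.card ≤ (orb α).card := by
  classical
  have key : ∀ V : Finset ℕ, V ⊆ W → 2 ^ V.card * (orb (α ^ (∏ p ∈ V, p))).card ≤ (orb α).card := by
    intro V
    induction V using Finset.induction_on with
    | empty => intro _; simp
    | insert p V hpV ih =>
      intro hV
      have hp := hW p (hV (Finset.mem_insert_self _ _))
      have hV2 : V ⊆ W := fun q hq => hV (Finset.mem_insert_of_mem hq)
      have hc : Nat.Coprime (∏ q ∈ V, q) p := by
        refine Nat.Coprime.prod_left fun q hq => ?_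
        rw [Nat.coprime_primes (hW q (hV2 hq)).1 hp.1]
        rintro rfl
        exact hpV hq
      have h1 := step α p (∏ q ∈ V, q) hp.1.pos hc hp.2
      rw [Finset.card_insert_of_notMem hpV, Finset.prod_insert hpV, pow_succ, mul_assoc]
      exact (Nat.mul_le_mul_left _ h1).trans (ih hV2)
  have h1 := key W (Finset.Subset.refl _)
  have h2 : 1 ≤ (orb (α ^ (∏ p ∈ W, p))).card := by
    refine Finset.card_pos.2 ⟨_, Disc.mem_orb.2 ⟨1, rfl⟩⟩
  calc 2 ^ W.card = 2 ^ W.card * 1 := (mul_one _).symm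
    _ ≤ _ := Nat.mul_le_mul_left _ h2
    _ ≤ _ := h1

/-- the finite set of all bad primes -/
theorem exists_bad (α : K) : ∃ W : Finset ℕ,
    (∀ p ∈ W, p.Prime ∧ ∃ x ∈ orb α, ∃ y ∈ orb α, x ≠ y ∧ x ^ p = y ^ p) ∧
    (∀ p : ℕ, p.Prime → p ∉ W → ∀ x ∈ orb α, ∀ y ∈ orb α, x ^ p = y ^ p → x = y) ∧
    2 ^ W.card ≤ (orb α).card ∧ (W.card : ℝ) ≤ Real.log (orb α).card / Real.log 2 := by
  classical
  set S : Set ℕ := {p | p.Prime ∧ ∃ x ∈ orb α, ∃ y ∈ orb α, x ≠ y ∧ x ^ p = y ^ p} with hS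
  have hfin : S.Finite := by
    by_contra hinf
    obtain ⟨V, hVS, hV⟩ := Set.Infinite.exists_subset_card_eq hinf (orb α).card
    have h1 := two_pow_bad_le α V (fun p hp => hVS hp)
    rw [hV] at h1
    exact absurd h1 (not_le.2 Nat.lt_two_pow_self)
  have hW : ∀ p ∈ hfin.toFinset, p.Prime ∧ ∃ x ∈ orb α, ∃ y ∈ orb α, x ≠ y ∧ x ^ p = y ^ p :=
    fun p hp => (Set.Finite.mem_toFinset hfin).1 hp
  have h2 := two_pow_bad_le α hfin.toFinset hW
  refine ⟨hfin.toFinset, hW, ?_, h2, ?_⟩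
  · intro p hp hpW x hx y hy hxy
    by_contra hne
    exact hpW ((Set.Finite.mem_toFinset hfin).2 ⟨hp, x, hx, y, hy, hne, hxy⟩)
  · rw [le_div_iff₀ (Real.log_pos (by norm_num))]
    have h3 : ((2 : ℝ) ^ hfin.toFinset.card) ≤ ((orb α).card : ℝ) := by exact_mod_cast h2
    have h4 := Real.log_le_log (by positivity) h3
    rwa [Real.log_pow] at h4

end H97.LB
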